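import Pool.Agent.W477.GM.Stms

set_option maxHeartbeats 1000000

namespace Pool.Agent.W477.GM.W376Dist

open Pool.Agent.W477.GM

/-- good conditions -/
structure Gd {C : Type} [PartialOrder C] [OrderTop C] {L : C → ℕ∞} (b : Ordinal.{0})
    (e : Finset (Ordinal.{0} × ℕ)) (t0 t : Cn C L) : Prop where
  le : t ≤ t0
  c : t.c = t0.c
  off : ∀ j, ¬ (b ≤ j.1 ∧ (j.1, j.2.1) ∈ e) → t.len j = 0

theorem finT (b : Ordinal.{0}) (e : Finset (Ordinal.{0} × ℕ)) :
    {j : J | b ≤ j.1 ∧ (j.1, j.2.1) ∈ e}.Finite := by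
  have h : ((fun p : (Ordinal.{0} × ℕ) × Bool => ((p.1.1, p.1.2, p.2) : J)) ''
      ((e : Set (Ordinal.{0} × ℕ)) ×ˢ (Set.univ : Set Bool))).Finite :=
    (e.finite_toSet.prod Set.finite_univ).image _
  refine h.subset ?_
  rintro ⟨β, n, s⟩ hj
  exact ⟨((β, n), s), ⟨hj.2, Set.mem_univ _⟩, rfl⟩

/-- lower bounds of short chains -/
theorem lbc (hK : KapF) {C : Type} [PartialOrder C] [OrderTop C] {L : C → ℕ∞} (b : Ordinal.{0})
    (e : Finset (Ordinal.{0} × ℕ)) (t0 : Cn C L) (ht0 : Gd b e t0 t0)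
    (he : ∀ β n, (β, n) ∈ e → (n : ℕ∞) < L t0.c) (K : Type) (hcard : Cardinal.mk K < kap b)
    (s : K → Cn C L) (hs : ∀ k, Gd b e t0 (s k)) (hch : ∀ k k', s k ≤ s k' ∨ s k' ≤ s k) :
    ∃ u : Cn C L, Gd b e t0 u ∧ ∀ k, u ≤ s k := by
  classical
  rcases isEmpty_or_nonempty K with hE | ⟨⟨k0⟩⟩
  · exact ⟨t0, ht0, fun k => (hE.false k).elim⟩
  have hzero : ∀ j, ¬ (b ≤ j.1 ∧ (j.1, j.2.1) ∈ e) → (⨆ k, (s k).len j) = 0 := by
    intro j hj
    have h1 : ∀ k, (s k).len j = 0 := fun k => (hs k).off j hj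
    apply le_antisymm _ zero_le
    apply Ordinal.iSup_le
    intro k
    rw [h1 k]
  have hle : ∀ k j, (s k).len j ≤ ⨆ k, (s k).len j := fun k j =>
    Ordinal.le_iSup (fun k => (s k).len j) k
  let u : Cn C L :=
    { c := t0.c
      len := fun j => ⨆ k, (s k).len j
      bit := fun j o => decide (∃ k, (s k).bit j o = true)
      fin := by
        refine (finT b e).subset ?_
        intro j hj
        by_contra hc
        exact hj (hzero j hc)
      lt := by
        intro j
        by_cases hj : b ≤ j.1 ∧ (j.1, j.2.1) ∈ e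
        · exact Cardinal.iSup_lt_ord_of_isRegular (hK.reg j.1)
            (lt_of_lt_of_le hcard (hK.mono _ _ hj.1)) (fun k => (s k).lt j)
        · show (⨆ k, (s k).len j) < (kap j.1).ord
          rw [hzero j hj]; exact kap_pos _
      off := by
        intro j o ho
        rw [decide_eq_false_iff_not]
        rintro ⟨k, hk⟩
        rw [(s k).off j o ((hle k j).trans ho)] at hk
        exact Bool.false_ne_true hk
      sup := by
        intro j hj
        by_cases hj' : b ≤ j.1 ∧ (j.1, j.2.1) ∈ e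
        · exact he _ _ hj'.2
        · exact absurd (hzero j hj') hj }
  have hus : ∀ k, u ≤ s k := by
    intro k
    refine ⟨(hs k).c.ge, fun j => ⟨hle k j, ?_⟩⟩
    intro o ho
    show decide (∃ k, (s k).bit j o = true) = (s k).bit j o
    by_cases hb : (s k).bit j o = true
    · rw [hb, decide_eq_true_iff]
      exact ⟨k, hb⟩
    · have hb' : (s k).bit j o = false := by simpa using hb
      rw [hb', decide_eq_false_iff_not]
      rintro ⟨k', hk'⟩
      rcases hch k k' with h | h
      · have ho' : o < (s k').len j := by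
          by_contra hc
          rw [(s k').off j o (not_lt.1 hc)] at hk'
          exact Bool.false_ne_true hk'
        rw [(h.2 j).2 o ho', hk'] at hb'
        exact Bool.false_ne_true hb'.symm
      · rw [(h.2 j).2 o ho, hb'] at hk'
        exact Bool.false_ne_true hk'
  exact ⟨u, ⟨(hus k0).trans (hs k0).le, rfl, hzero⟩, hus⟩

theorem dist_holds : P_DIST := by
  intro hK C _ _ L b e I A t0 hI hoff he hA
  classical
  obtain ⟨o, hwf⟩ := exists_wellOrder I
  have ht0 : Gd b e t0 t0 := ⟨le_rfl, rfl, hoff⟩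
  -- the recursion
  let lb : (i : I) → ((j : I) → j < i → Cn C L) → Cn C L := fun i s =>
    if h : ∃ u : Cn C L, Gd b e t0 u ∧ ∀ j hj, u ≤ s j hj then h.choose else t0
  let F : (i : I) → ((j : I) → j < i → Cn C L) → Cn C L := fun i s =>
    if h : ∃ t' : Cn C L, Gd b e t0 t' ∧ t' ≤ lb i s ∧ A i t' then h.choose else lb i s
  let t : I → Cn C L := WellFounded.fix (wellFounded_lt (α := I)) F
  have ht : ∀ i, t i = F i (fun j _ => t j) := fun i => WellFounded.fix_eq _ F i
  have key : ∀ i, (Gd b e t0 (t i) ∧ ∀ j, j < i → t i ≤ t j) ∧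
      ((A i (t i)) ∨ ∀ t' : Cn C L, Gd b e t0 t' → t' ≤ t i → ¬ A i t') := by
    intro i
    induction i using WellFoundedLT.induction with
    | ind i ih =>
      have hex : ∃ u : Cn C L, Gd b e t0 u ∧ ∀ j (_ : j < i), u ≤ t j := by
        obtain ⟨u, hu1, hu2⟩ := lbc hK b e t0 ht0 he {j : I // j < i}
          (lt_of_le_of_lt (Cardinal.mk_subtype_le _) hI) (fun j => t j.1)
          (fun j => (ih j.1 j.2).1.1) (by
            intro j j'
            rcases lt_trichotomy j.1 j'.1 with h | h | h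
            · right; exact (ih j'.1 j'.2).1.2 j.1 h
            · left; show t j.1 ≤ t j'.1; rw [h]
            · left; exact (ih j.1 j.2).1.2 j'.1 h)
        exact ⟨u, hu1, fun j hj => hu2 ⟨j, hj⟩⟩
      have hlb : Gd b e t0 (lb i (fun j _ => t j)) ∧ ∀ j, j < i → lb i (fun j _ => t j) ≤ t j := by
        have : lb i (fun j _ => t j) = hex.choose := dif_pos hex
        rw [this]
        exact ⟨hex.choose_spec.1, fun j hj => hex.choose_spec.2 j hj⟩
      set w := lb i (fun j _ => t j) with hw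
      by_cases hA' : ∃ t' : Cn C L, Gd b e t0 t' ∧ t' ≤ w ∧ A i t'
      · have h1 : t i = hA'.choose := by rw [ht i]; exact dif_pos hA'
        obtain ⟨h2, h3, h4⟩ := hA'.choose_spec
        rw [← h1] at h2 h3 h4
        exact ⟨⟨h2, fun j hj => h3.trans (hlb.2 j hj)⟩, Or.inl h4⟩
      · have h1 : t i = w := by rw [ht i]; exact dif_neg hA'
        rw [h1]
        refine ⟨hlb, Or.inr ?_⟩
        intro t' ht' htw hAt
        exact hA' ⟨t', ht', htw, hAt⟩
  obtain ⟨u, hu1, hu2⟩ := lbc hK b e t0 ht0 he I hI t (fun i => (key i).1.1) (by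
    intro i j
    rcases lt_trichotomy i j with h | h | h
    · right; exact (key j).1.2 i h
    · left; rw [h]
    · left; exact (key i).1.2 j h)
  refine ⟨u, hu1.le, hu1.c, hu1.off, ?_⟩
  intro i
  rcases (key i).2 with h | h
  · left; exact hA i _ _ (hu2 i) h
  · right
    intro t' h1 h2 h3
    exact h t' ⟨h1.trans hu1.le, h2, h3⟩ (h1.trans (hu2 i))

end Pool.Agent.W477.GM.W376Dist
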