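import Pool.Agent.W78.GM.Basic

/-! Project GM (helper78), task GM-K: the Turan-Kubilius inequality for Gaussian integers in a
logarithmic window. Port of `Pool.Agent.H376R2.MR.Tk`. -/

set_option autoImplicit false

namespace Pool.Agent.W376.GM

open Finset Filter
open Pool.Agent.W78.GM

/-- closed annuli -/
theorem ann_closed {C : ℝ} (hC : 0 < C)
    (hlat : ∀ A B : ℝ, 1 ≤ A → A ≤ B →
      |∑ z ∈ ann A B, 1 / (nm z : ℝ) - Real.pi * Real.log (B / A)| ≤ C / Real.sqrt A)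
    {A B : ℝ} (hA : 2 ≤ A) (hAB : A ≤ B) :
    |∑ z ∈ (ball B).filter (fun z => A ≤ (nm z : ℝ)), 1 / (nm z : ℝ) -
      Real.pi * Real.log (B / A)| ≤ (Real.pi + 2 * C) / Real.sqrt A := by
  have hA0 : 0 < A := by linarith
  have hB0 : 0 < B := by linarith
  have hpi := Real.pi_pos
  have hs0 : 0 < Real.sqrt A := Real.sqrt_pos.2 hA0
  have hs1 : 1 ≤ Real.sqrt A := by
    rw [Real.one_le_sqrt]; linarith
  have hss : Real.sqrt A * Real.sqrt A = A := Real.mul_self_sqrt hA0.le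
  rw [abs_le]
  constructor
  · -- lower bound
    have h1 := (abs_le.1 (hlat A B (by linarith) hAB)).1
    have h2 : ∑ z ∈ ann A B, 1 / (nm z : ℝ) ≤
        ∑ z ∈ (ball B).filter (fun z => A ≤ (nm z : ℝ)), 1 / (nm z : ℝ) := by
      refine sum_le_sum_of_subset_of_nonneg ?_ (fun _ _ _ => by positivity)
      intro z hz
      rw [mem_ann] at hz
      rw [mem_filter, mem_ball]
      exact ⟨⟨hz.1, hz.2.2⟩, hz.2.1.le⟩
    have h3 : C / Real.sqrt A ≤ (Real.pi + 2 * C) / Real.sqrt A :=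
      div_le_div_of_nonneg_right (by linarith) hs0.le
    linarith
  · -- upper bound
    set A' := A - Real.sqrt A / 2 with hA'
    have hA'2 : A / 2 ≤ A' := by
      rw [hA']
      nlinarith
    have hA'1 : 1 ≤ A' := by linarith
    have hA'A : A' < A := by rw [hA']; linarith
    have hA'0 : 0 < A' := by linarith
    have h1 := (abs_le.1 (hlat A' B hA'1 (by linarith))).2
    have h2 : ∑ z ∈ (ball B).filter (fun z => A ≤ (nm z : ℝ)), 1 / (nm z : ℝ) ≤
        ∑ z ∈ ann A' B, 1 / (nm z : ℝ) := by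
      refine sum_le_sum_of_subset_of_nonneg ?_ (fun _ _ _ => by positivity)
      intro z hz
      rw [mem_filter, mem_ball] at hz
      rw [mem_ann]
      exact ⟨hz.1.1, by linarith [hz.2], hz.1.2⟩
    have h3 : Real.log (B / A') ≤ Real.log (B / A) + 1 / Real.sqrt A := by
      rw [Real.log_div hB0.ne' hA'0.ne', Real.log_div hB0.ne' hA0.ne']
      have h4 : Real.log A - Real.log A' ≤ A / A' - 1 := by
        rw [← Real.log_div hA0.ne' hA'0.ne']
        exact Real.log_le_sub_one_of_pos (by positivity)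
      have h5 : A / A' - 1 ≤ 1 / Real.sqrt A := by
        rw [div_sub_one hA'0.ne', div_le_div_iff₀ hA'0 hs0]
        have h6 : A - A' = Real.sqrt A / 2 := by rw [hA']; ring
        rw [h6]
        nlinarith
      linarith
    have h4 : C / Real.sqrt A' ≤ 2 * C / Real.sqrt A := by
      have h5 : Real.sqrt A / 2 ≤ Real.sqrt A' := by
        apply Real.le_sqrt_of_sq_le
        rw [div_pow, Real.sq_sqrt hA0.le]
        linarith
      rw [div_le_div_iff₀ (Real.sqrt_pos.2 hA'0) hs0]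
      nlinarith
    have h5 : Real.pi * Real.log (B / A') ≤ Real.pi * (Real.log (B / A) + 1 / Real.sqrt A) :=
      mul_le_mul_of_nonneg_left h3 hpi.le
    have h6 : (Real.pi + 2 * C) / Real.sqrt A = Real.pi * (1 / Real.sqrt A) +
        2 * C / Real.sqrt A := by ring
    rw [h6]
    linarith

open scoped Classical in
/-- reciprocals of the norms of the multiples of `d` in a window -/
theorem tk_mult {C : ℝ} (hC : 0 < C)
    (hlat : ∀ A B : ℝ, 1 ≤ A → A ≤ B →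
      |∑ z ∈ ann A B, 1 / (nm z : ℝ) - Real.pi * Real.log (B / A)| ≤ C / Real.sqrt A)
    {Y : ℝ} (hY : 0 < Y) {d : GaussianInt} (hd : d ≠ 0) (hdY : 2 ≤ Y / Real.exp 2 / (nm d : ℝ)) :
    |∑ z ∈ (win Y).filter (fun z => d ∣ z), 1 / (nm z : ℝ) - 4 * Real.pi / (nm d : ℝ)| ≤
      (Real.pi + 2 * C) * Real.exp 1 / Real.sqrt Y := by
  have hd1 : 1 ≤ nm d := one_le_nm.2 hd
  have hd0 : (0 : ℝ) < nm d := by exact_mod_cast hd1
  have hd1' : (1 : ℝ) ≤ nm d := by exact_mod_cast hd1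
  have he : (0 : ℝ) < Real.exp 2 := Real.exp_pos 2
  have hpi := Real.pi_pos
  have hsum : ∑ z ∈ (win Y).filter (fun z => d ∣ z), 1 / (nm z : ℝ) =
      (1 / (nm d : ℝ)) * ∑ z ∈ (ball (Real.exp 2 * Y / nm d)).filter
        (fun z => Y / Real.exp 2 / nm d ≤ (nm z : ℝ)), 1 / (nm z : ℝ) := by
    rw [mul_sum]
    symm
    refine sum_bij (fun z _ => d * z) ?_ ?_ ?_ ?_
    · intro z hz
      rw [mem_filter, mem_ball] at hz
      rw [mem_filter, mem_win, nm_mul]
      obtain ⟨⟨h1, h2⟩, h3⟩ := hz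
      rw [le_div_iff₀ hd0] at h2
      rw [div_le_iff₀ hd0] at h3
      refine ⟨⟨Nat.mul_pos hd1 h1, ?_, ?_⟩, dvd_mul_right _ _⟩
      · push_cast; linarith
      · push_cast; linarith
    · intro z _ z' _ h
      exact mul_left_cancel₀ hd h
    · intro z hz
      rw [mem_filter, mem_win] at hz
      obtain ⟨⟨h1, h2, h3⟩, t, rfl⟩ := hz
      rw [nm_mul] at h1 h2 h3
      push_cast at h2 h3
      refine ⟨t, ?_, rfl⟩
      rw [mem_filter, mem_ball, le_div_iff₀ hd0, div_le_iff₀ hd0]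
      refine ⟨⟨Nat.pos_of_ne_zero ?_, by linarith⟩, by linarith⟩
      rintro h0
      rw [h0] at h1
      simp at h1
    · intro z _
      rw [nm_mul]
      push_cast
      rw [one_div_mul_one_div]
  rw [hsum]
  have hAB : Y / Real.exp 2 / nm d ≤ Real.exp 2 * Y / nm d := by
    refine div_le_div_of_nonneg_right ?_ hd0.le
    rw [div_le_iff₀ he]
    have h1 : (1 : ℝ) ≤ Real.exp 2 := Real.one_le_exp (by norm_num)
    nlinarith [mul_pos hY he, mul_le_mul_of_nonneg_left h1 (mul_pos he hY).le]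
  have h1 := ann_closed hC hlat hdY hAB
  have h2 : Real.log (Real.exp 2 * Y / nm d / (Y / Real.exp 2 / nm d)) = 4 := by
    have : Real.exp 2 * Y / nm d / (Y / Real.exp 2 / nm d) = Real.exp 4 := by
      have h4 : Real.exp 4 = Real.exp 2 * Real.exp 2 := by rw [← Real.exp_add]; norm_num
      rw [h4]
      field_simp
    rw [this, Real.log_exp]
  rw [h2] at h1
  set s := ∑ z ∈ (ball (Real.exp 2 * Y / nm d)).filter
        (fun z => Y / Real.exp 2 / nm d ≤ (nm z : ℝ)), 1 / (nm z : ℝ) with hs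
  have h3 : (1 / (nm d : ℝ)) * s - 4 * Real.pi / (nm d : ℝ) =
      (1 / (nm d : ℝ)) * (s - Real.pi * 4) := by ring
  rw [h3, abs_mul, abs_of_pos (by positivity : (0 : ℝ) < 1 / (nm d : ℝ))]
  have hsY : 0 < Real.sqrt Y := Real.sqrt_pos.2 hY
  have hsd : 0 < Real.sqrt (nm d : ℝ) := Real.sqrt_pos.2 hd0
  have hsd1 : 1 ≤ Real.sqrt (nm d : ℝ) := by rw [Real.one_le_sqrt]; exact hd1'
  have hsqrt : Real.sqrt (Y / Real.exp 2 / nm d) = Real.sqrt Y / Real.exp 1 / Real.sqrt (nm d) := by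
    rw [Real.sqrt_div (by positivity), Real.sqrt_div hY.le]
    congr 2
    have : Real.exp 2 = Real.exp 1 ^ 2 := by rw [← Real.exp_nat_mul]; norm_num
    rw [this, Real.sqrt_sq (Real.exp_pos 1).le]
  calc (1 / (nm d : ℝ)) * |s - Real.pi * 4|
      ≤ (1 / (nm d : ℝ)) * ((Real.pi + 2 * C) / Real.sqrt (Y / Real.exp 2 / nm d)) :=
        mul_le_mul_of_nonneg_left h1 (by positivity)
    _ = (1 / Real.sqrt (nm d)) * ((Real.pi + 2 * C) * Real.exp 1 / Real.sqrt Y) := by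
        rw [hsqrt]
        have hdd : (nm d : ℝ) = Real.sqrt (nm d) * Real.sqrt (nm d) :=
          (Real.mul_self_sqrt hd0.le).symm
        have hE := Real.exp_pos 1
        rw [show (1 / (nm d : ℝ)) = 1 / (Real.sqrt (nm d) * Real.sqrt (nm d)) by rw [← hdd]]
        field_simp
    _ ≤ 1 * ((Real.pi + 2 * C) * Real.exp 1 / Real.sqrt Y) := by
        refine mul_le_mul_of_nonneg_right ?_ (by positivity)
        rw [div_le_one hsd]; exact hsd1
    _ = _ := one_mul _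

open scoped Classical in
/-- Task GM-K. -/
theorem tk_of : S_LAT → S_TK := by
  rintro ⟨C₀, hC₀, -, hlat⟩
  set C₁ := (Real.pi + 2 * C₀) * Real.exp 1 with hC₁
  have hpi := Real.pi_pos
  have hC₁0 : 0 < C₁ := by positivity
  refine ⟨4 * Real.pi + 5 * C₁, by positivity, fun S ϖ Q Y hS hW hQY => ?_⟩
  set W := ∑ p ∈ S, 1 / (p : ℝ) with hWdef
  have hne : S.Nonempty := by
    rw [nonempty_iff_ne_empty]
    rintro rfl
    simp at hWdef
    linarith
  obtain ⟨p₀, hp₀⟩ := hne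
  have h5 : ∀ p ∈ S, (5 : ℝ) ≤ p := by
    intro p hp
    have h1 := (hS p hp).1.two_le
    have h2 := (hS p hp).2.1
    have h3 : 5 ≤ p := by omega
    exact_mod_cast h3
  have hQ : 5 ≤ Q := (h5 p₀ hp₀).trans (hS p₀ hp₀).2.2.1
  have hY : 0 < Y := lt_of_lt_of_le (by positivity) hQY
  set E := C₁ / Real.sqrt Y with hE
  have hE0 : 0 < E := by
    have := Real.sqrt_pos.2 hY
    positivity
  have hcard1 : (1 : ℝ) ≤ S.card := by
    have : 0 < S.card := card_pos.2 ⟨p₀, hp₀⟩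
    exact_mod_cast this
  have hcardQ : (S.card : ℝ) ≤ Q := by
    have h1 : S ⊆ Icc 1 ⌊Q⌋₊ := by
      intro p hp
      rw [mem_Icc, Nat.le_floor_iff (by linarith)]
      exact ⟨(hS p hp).1.one_lt.le, (hS p hp).2.2.1⟩
    have h2 := card_le_card h1
    rw [Nat.card_Icc] at h2
    have h3 : (S.card : ℝ) ≤ (⌊Q⌋₊ : ℝ) := by
      have : S.card ≤ ⌊Q⌋₊ := by omega
      exact_mod_cast this
    exact h3.trans (Nat.floor_le (by linarith))
  have hWcard : W ≤ S.card := by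
    rw [hWdef]
    refine (sum_le_card_nsmul S _ 1 fun p hp => ?_).trans (by simp)
    have h1 : (1 : ℝ) ≤ p := by linarith [h5 p hp]
    rw [div_le_one (by linarith)]
    exact h1
  have he8 : Real.exp 2 ≤ 8 := by
    have h1 : Real.exp 2 = Real.exp 1 * Real.exp 1 := by rw [← Real.exp_add]; norm_num
    have h2 := Real.exp_one_lt_d9
    have h3 := Real.exp_pos 1
    rw [h1]
    nlinarith
  have he : (0 : ℝ) < Real.exp 2 := Real.exp_pos 2
  have hwin : ∀ D : ℝ, 0 < D → D ≤ Q ^ 2 → 2 ≤ Y / Real.exp 2 / D := by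
    intro D hD hDQ
    rw [le_div_iff₀ hD, le_div_iff₀ he]
    have h1 : 2 * D * Real.exp 2 ≤ 2 * Q ^ 2 * 8 := by
      have h2 : D * Real.exp 2 ≤ Q ^ 2 * 8 := mul_le_mul hDQ he8 he.le (by positivity)
      linarith
    have h2 : 2 * Q ^ 2 * 8 ≤ Q ^ 4 := by
      have h3 : 25 ≤ Q ^ 2 := by nlinarith
      have h4 : Q ^ 4 = Q ^ 2 * Q ^ 2 := by ring
      rw [h4]
      nlinarith
    linarith
  -- the sums over the multiples
  set T : GaussianInt → ℝ := fun d => ∑ z ∈ (win Y).filter (fun z => d ∣ z), 1 / (nm z : ℝ) with hT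
  have hTd : ∀ d : GaussianInt, d ≠ 0 → (nm d : ℝ) ≤ Q ^ 2 →
      |T d - 4 * Real.pi / (nm d : ℝ)| ≤ E := fun d hd hdQ =>
    tk_mult hC₀ hlat hY hd (hwin _ (nm_posR hd) hdQ)
  have hcount : ∀ z : GaussianInt, ((S.filter (fun p => ϖ p ∣ z)).card : ℝ) =
      ∑ p ∈ S, if ϖ p ∣ z then (1 : ℝ) else 0 := by
    intro z
    rw [card_filter]
    push_cast
    rfl
  have e1 : ∑ z ∈ win Y, ((S.filter (fun p => ϖ p ∣ z)).card : ℝ) / (nm z : ℝ) =
      ∑ p ∈ S, T (ϖ p) := by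
    simp_rw [hcount, sum_div, hT, sum_filter]
    rw [sum_comm]
    refine sum_congr rfl fun p _ => sum_congr rfl fun z _ => ?_
    split_ifs <;> simp
  have e2 : ∑ z ∈ win Y, ((S.filter (fun p => ϖ p ∣ z)).card : ℝ) ^ 2 / (nm z : ℝ) =
      ∑ p ∈ S, ∑ q ∈ S, ∑ z ∈ win Y, (if ϖ p ∣ z ∧ ϖ q ∣ z then 1 / (nm z : ℝ) else 0) := by
    have h1 : ∀ z ∈ win Y, ((S.filter (fun p => ϖ p ∣ z)).card : ℝ) ^ 2 / (nm z : ℝ) =
        ∑ p ∈ S, ∑ q ∈ S, (if ϖ p ∣ z ∧ ϖ q ∣ z then 1 / (nm z : ℝ) else 0) := by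
      intro z _
      rw [hcount, sq, sum_mul_sum, sum_div]
      refine sum_congr rfl fun p _ => ?_
      rw [sum_div]
      refine sum_congr rfl fun q _ => ?_
      by_cases hp : ϖ p ∣ z <;> by_cases hq : ϖ q ∣ z <;> simp [hp, hq]
    rw [sum_congr rfl h1, sum_comm]
    refine sum_congr rfl fun p _ => ?_
    rw [sum_comm]
  have e3 : ∀ p ∈ S, ∀ q ∈ S,
      ∑ z ∈ win Y, (if ϖ p ∣ z ∧ ϖ q ∣ z then 1 / (nm z : ℝ) else 0) ≤
      4 * Real.pi * (1 / (p : ℝ)) * (1 / (q : ℝ)) + E +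
        (if p = q then 4 * Real.pi * (1 / (p : ℝ)) else 0) := by
    intro p hp q hq
    have hp0 : (0 : ℝ) < p := by linarith [h5 p hp]
    have hq0 : (0 : ℝ) < q := by linarith [h5 q hq]
    have hpp : nm (ϖ p) = p := (hS p hp).2.2.2
    have hqq : nm (ϖ q) = q := (hS q hq).2.2.2
    have hp1 := (hS p hp).1
    have hq1 := (hS q hq).1
    have hpQ := (hS p hp).2.2.1
    have hqQ := (hS q hq).2.2.1
    by_cases hpq : p = q
    · subst hpq
      rw [if_pos rfl]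
      have h1 : ∑ z ∈ win Y, (if ϖ p ∣ z ∧ ϖ p ∣ z then 1 / (nm z : ℝ) else 0) = T (ϖ p) := by
        simp_rw [and_self, hT, sum_filter]
      rw [h1]
      have h2 := (abs_le.1 (hTd (ϖ p) (ne_zero_of_nm hp1 hpp) (by rw [hpp]; nlinarith))).2
      rw [hpp] at h2
      have h3 : 0 ≤ 4 * Real.pi * (1 / (p : ℝ)) * (1 / (p : ℝ)) := by positivity
      have h4 : 4 * Real.pi / (p : ℝ) = 4 * Real.pi * (1 / (p : ℝ)) := by ring
      linarith
    · rw [if_neg hpq]
      have h1 : ∑ z ∈ win Y, (if ϖ p ∣ z ∧ ϖ q ∣ z then 1 / (nm z : ℝ) else 0) =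
          T (ϖ p * ϖ q) := by
        simp only [hT, sum_filter]
        refine sum_congr rfl fun z _ => ?_
        have : ϖ p * ϖ q ∣ z ↔ ϖ p ∣ z ∧ ϖ q ∣ z := by
          refine ⟨fun h => ⟨(dvd_mul_right _ _).trans h, (dvd_mul_left _ _).trans h⟩, ?_⟩
          rintro ⟨⟨t, rfl⟩, h⟩
          apply mul_dvd_mul_left
          rcases (prime_of_nm hq1 hqq).dvd_or_dvd h with h6 | h6
          · exfalso
            have h7 := nm_dvd h6
            rw [hpp, hqq] at h7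
            exact hpq ((Nat.prime_dvd_prime_iff_eq hq1 hp1).1 h7).symm
          · exact h6
        simp only [this]
      rw [h1]
      have h2 := (abs_le.1 (hTd (ϖ p * ϖ q)
        (mul_ne_zero (ne_zero_of_nm hp1 hpp) (ne_zero_of_nm hq1 hqq)) (by
          rw [nm_mul, hpp, hqq]; push_cast; nlinarith))).2
      rw [nm_mul, hpp, hqq] at h2
      push_cast at h2
      have h4 : 4 * Real.pi / ((p : ℝ) * q) = 4 * Real.pi * (1 / (p : ℝ)) * (1 / (q : ℝ)) := by
        field_simp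
      linarith
  have f2 : ∑ z ∈ win Y, ((S.filter (fun p => ϖ p ∣ z)).card : ℝ) ^ 2 / (nm z : ℝ) ≤
      4 * Real.pi * W ^ 2 + (S.card : ℝ) ^ 2 * E + 4 * Real.pi * W := by
    rw [e2]
    refine (sum_le_sum fun p hp => sum_le_sum fun q hq => e3 p hp q hq).trans (le_of_eq ?_)
    simp only [sum_add_distrib, sum_ite_eq, ← mul_sum, ← sum_mul, sum_const, nsmul_eq_mul]
    rw [sum_congr rfl fun p hp => if_pos hp, ← mul_sum, ← hWdef]
    ring
  have f1 : 4 * Real.pi * W - S.card * E ≤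
      ∑ z ∈ win Y, ((S.filter (fun p => ϖ p ∣ z)).card : ℝ) / (nm z : ℝ) := by
    rw [e1]
    have h1 : ∀ p ∈ S, 4 * Real.pi * (1 / (p : ℝ)) - E ≤ T (ϖ p) := by
      intro p hp
      have hpp : nm (ϖ p) = p := (hS p hp).2.2.2
      have hpQ := (hS p hp).2.2.1
      have hp5 := h5 p hp
      have h2 := (abs_le.1 (hTd (ϖ p) (ne_zero_of_nm (hS p hp).1 hpp) (by rw [hpp]; nlinarith))).1
      rw [hpp] at h2
      have h4 : 4 * Real.pi / (p : ℝ) = 4 * Real.pi * (1 / (p : ℝ)) := by ring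
      linarith
    refine le_trans (le_of_eq ?_) (sum_le_sum h1)
    simp only [sum_sub_distrib, ← mul_sum, sum_const, nsmul_eq_mul]
    rw [← hWdef]
  have f0 : ∑ z ∈ win Y, 1 / (nm z : ℝ) ≤ 4 * Real.pi + E := by
    have h1 := (abs_le.1 (hTd 1 one_ne_zero (by rw [nm_one]; push_cast; nlinarith))).2
    have h2 : T 1 = ∑ z ∈ win Y, 1 / (nm z : ℝ) := by
      simp only [hT, one_dvd, filter_true]
    rw [h2] at h1
    simp only [nm_one, Nat.cast_one, div_one] at h1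
    linarith
  have hexp : ∀ W : ℝ, ∑ z ∈ win Y, (((S.filter (fun p => ϖ p ∣ z)).card : ℝ) - W) ^ 2 /
        (nm z : ℝ) =
      ∑ z ∈ win Y, ((S.filter (fun p => ϖ p ∣ z)).card : ℝ) ^ 2 / (nm z : ℝ) -
        2 * W * ∑ z ∈ win Y, ((S.filter (fun p => ϖ p ∣ z)).card : ℝ) / (nm z : ℝ) +
        W ^ 2 * ∑ z ∈ win Y, 1 / (nm z : ℝ) := by
    intro W
    rw [mul_sum, mul_sum, ← sum_sub_distrib, ← sum_add_distrib]
    refine sum_congr rfl fun z _ => ?_
    ring
  rw [hexp]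
  have hW0 : 0 < W := by linarith
  have g1 : 2 * W * (4 * Real.pi * W - S.card * E) ≤
      2 * W * ∑ z ∈ win Y, ((S.filter (fun p => ϖ p ∣ z)).card : ℝ) / (nm z : ℝ) :=
    mul_le_mul_of_nonneg_left f1 (by positivity)
  have g0 : W ^ 2 * ∑ z ∈ win Y, 1 / (nm z : ℝ) ≤ W ^ 2 * (4 * Real.pi + E) :=
    mul_le_mul_of_nonneg_left f0 (by positivity)
  -- the error term
  have hc0 : (0 : ℝ) ≤ S.card := by positivity
  have hEQ : Q ^ 2 * E ≤ C₁ := by
    have h1 : Q ^ 2 ≤ Real.sqrt Y := by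
      apply Real.le_sqrt_of_sq_le
      calc (Q ^ 2) ^ 2 = Q ^ 4 := by ring
        _ ≤ Y := hQY
    rw [hE, mul_div_assoc', div_le_iff₀ (Real.sqrt_pos.2 hY)]
    nlinarith
  have h5 : (S.card : ℝ) ^ 2 ≤ Q ^ 2 := pow_le_pow_left₀ hc0 hcardQ 2
  have h6 : W * S.card ≤ Q ^ 2 := by
    calc W * S.card ≤ S.card * S.card := mul_le_mul_of_nonneg_right hWcard hc0
      _ = (S.card : ℝ) ^ 2 := by ring
      _ ≤ Q ^ 2 := h5
  have h7 : W ^ 2 ≤ Q ^ 2 := (pow_le_pow_left₀ hW0.le hWcard 2).trans h5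
  have h8 : (S.card : ℝ) ^ 2 * E ≤ Q ^ 2 * E := mul_le_mul_of_nonneg_right h5 hE0.le
  have h9 : W * S.card * E ≤ Q ^ 2 * E := mul_le_mul_of_nonneg_right h6 hE0.le
  have h10 : W ^ 2 * E ≤ Q ^ 2 * E := mul_le_mul_of_nonneg_right h7 hE0.le
  have h11 : C₁ ≤ C₁ * W := le_mul_of_one_le_right hC₁0.le hW
  have h12 : 2 * W * (4 * Real.pi * W - S.card * E) =
      8 * Real.pi * W ^ 2 - 2 * (W * S.card * E) := by ring
  have h13 : W ^ 2 * (4 * Real.pi + E) = 4 * Real.pi * W ^ 2 + W ^ 2 * E := by ring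
  have h14 : (4 * Real.pi + 5 * C₁) * W = 4 * Real.pi * W + 5 * (C₁ * W) := by ring
  rw [h12] at g1
  rw [h13] at g0
  rw [h14]
  linarith

end Pool.Agent.W376.GM
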